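import Pool.Agent.Helper42.TG.DefsE
import Pool.Agent.Helper19.TG.Cmb
import Pool.Agent.Helper92.TG.Cmb

/-!
# Project TG (MP_a41896_nt): END-G, part A (good sequences, moves)

`GD H U c`: the sequence `c` violates the inequality for some centre, along the ultrafilter `U`.  `Mov H μ`: the homomorphism `μ` of
`∏ (W i).Point` is admissible (heights comparable, genericity, transfer of the centre).  GD.move: good sequences are moved to good ones.
-/

set_option autoImplicit false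

open MvPolynomial

namespace Pool.Agent.Helper3.TG

open WeierstrassCurve Height
open Pool.Agent.Helper29.BL
open Pool.Agent.Helper92.Ru hiding cmb
open Pool.Agent.Helper42.SG
open Pool.Agent.Helper5.UN (CodimGT cH)
open Pool.Agent.Helper60.HC (Lo nrs xs Bq eval_Bq Bq_ne_zero)
open Pool.Agent.Helper19.PM
open Pool.Agent.Helper19.TN (UD LowU MAINW Pr)
open Pool.Agent.Helper42.TG (slowP Free)

noncomputable section

variable {K : Type} [Field K] [NumberField K] [DecidableEq K] {σ : Type} [Fintype σ]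
  [DecidableEq σ] {W : σ → Affine K}

/-- a sequence which violates the inequality for some centre -/
structure GD (H : ∀ i, (W i).Point → ℝ) (U : Ultrafilter ℕ) (c : ℕ → ∀ i, (W i).Point) :
    Prop where
  ud : UD U (nrs H) c
  sys : ∃ (D : ℕ) (J : Type) (_ : Fintype J) (f : J → MvPolynomial σ K) (ε : ℝ), 0 < ε ∧
    (∀ j i, degreeOf i (f j) ≤ D) ∧ CodimGT D f 1 ∧ (∀ k, ∃ t, eval (xs (c k)) (f t) ≠ 0) ∧
    ∀ k, ε * nrs H (c k) ≤ cH D f (xs (c k))

/-- admissible homomorphisms -/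
structure Mov (H : ∀ i, (W i).Point → ℝ) (μ : (∀ i, (W i).Point) →+ ∀ i, (W i).Point) :
    Prop where
  up : ∃ C : ℝ, ∀ z, nrs H (μ z) ≤ C * nrs H z
  lo : ∃ C : ℝ, ∀ z, nrs H z ≤ C * nrs H (μ z)
  nz : ∃ Z : MvPolynomial σ K, Z ≠ 0 ∧ ∀ z : ∀ i, (W i).Point, (∀ i, z i ≠ 0) →
    eval (xs z) Z ≠ 0 → ∀ i, μ z i ≠ 0
  gen : ∀ Z' : MvPolynomial σ K, Z' ≠ 0 → ∃ Z : MvPolynomial σ K, Z ≠ 0 ∧
    ∀ z : ∀ i, (W i).Point, (∀ i, z i ≠ 0) → (∀ i, μ z i ≠ 0) → eval (xs z) Z ≠ 0 →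
      eval (xs (μ z)) Z' ≠ 0
  tr : ∀ (D : ℕ) (J : Type) [Fintype J] (f : J → MvPolynomial σ K),
    (∀ j i, degreeOf i (f j) ≤ D) → CodimGT D f 1 →
    ∃ (E : ℕ) (J' : Type) (_ : Fintype J') (f' : J' → MvPolynomial σ K) (C : ℝ),
      (∀ j i, degreeOf i (f' j) ≤ E) ∧ CodimGT E f' 1 ∧ 0 ≤ C ∧
      ∀ z : ∀ i, (W i).Point, (∀ i, z i ≠ 0) → (∀ i, μ z i ≠ 0) →
        (∃ j, eval (xs (μ z)) (f' j) ≠ 0) → cH D f (xs z) ≤ cH E f' (xs (μ z)) + C

/-- a polynomial which is nonzero only outside the centre -/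
theorem off_of {D : ℕ} {J : Type} [Fintype J] {f : J → MvPolynomial σ K}
    (hf : ∀ j i, degreeOf i (f j) ≤ D) (hc : CodimGT D f 1) :
    ∃ P0 : MvPolynomial σ K, P0 ≠ 0 ∧ ∀ x : σ → K, eval x P0 ≠ 0 → ∃ t, eval x (f t) ≠ 0 := by
  obtain ⟨E, B, -, -, hJ⟩ := Pool.Agent.Helper60.HC.th_ELOC2 K σ 1 D J f hf hc
  obtain ⟨P0, hP0, -, -, hP0l⟩ := hJ Finset.univ (by rw [Finset.card_univ]; omega)
  refine ⟨P0, hP0, ?_⟩
  intro x hx
  by_contra hno
  push Not at hno
  obtain ⟨v⟩ : Nonempty (AbsoluteValue K ℝ) := ⟨AbsoluteValue.trivial⟩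
  have h1 := hP0l v x
  have h2 : (⨆ j, v (eval x (f j))) = 0 := by
    have : (fun j => v (eval x (f j))) = fun _ => 0 := by
      funext j
      rw [hno j, map_zero]
    rw [this]
    exact Real.iSup_const_zero
  rw [h2, mul_zero] at h1
  have h3 : 0 < v (eval x P0) := v.pos hx
  have h4 : 0 < (∏ i, Mv v (x i)) ^ D := by
    refine pow_pos (Finset.prod_pos fun i _ => ?_) _
    unfold Mv
    exact lt_of_lt_of_le one_pos (le_max_left _ _)
  nlinarith [mul_pos h3 h4]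


omit [NumberField K] [DecidableEq K] in
theorem slow_mono {U : Ultrafilter ℕ} {T T' : ℕ → ℝ} {C : ℝ} (hC : 0 < C)
    (hT : ∀ᶠ k in (U : Filter ℕ), T k ≤ C * T' k) {W₀ : Affine K} {H₀ : W₀.Point → ℝ}
    {s : ℕ → W₀.Point} (hs : s ∈ slowP U T H₀) : s ∈ slowP U T' H₀ := by
  intro η hη
  filter_upwards [hs (η / C) (by positivity), hT] with k h1 h2
  refine h1.trans ?_
  have h3 : η / C * T k ≤ η / C * (C * T' k) := mul_le_mul_of_nonneg_left h2 (by positivity)
  have h4 : η / C * (C * T' k) = η * T' k := by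
    field_simp
  linarith

omit [NumberField K] [DecidableEq K] in
theorem slow_congr {U : Ultrafilter ℕ} {T : ℕ → ℝ} {W₀ : Affine K} {H₀ : W₀.Point → ℝ}
    {s s' : ℕ → W₀.Point} (h : ∀ᶠ k in (U : Filter ℕ), s' k = s k) (hs : s ∈ slowP U T H₀) :
    s' ∈ slowP U T H₀ := by
  intro η hη
  filter_upwards [hs η hη, h] with k h1 h2
  rw [h2]
  exact h1

/-- a good sequence is moved to a good sequence; its norm is comparable -/
theorem GD.move {H : ∀ i, (W i).Point → ℝ} (hQ : IsQuad (nrs H)) {U : Ultrafilter ℕ}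
    {c : ℕ → ∀ i, (W i).Point} (h : GD H U c) {μ : (∀ i, (W i).Point) →+ ∀ i, (W i).Point}
    (hμ : Mov H μ) :
    ∃ c' : ℕ → ∀ i, (W i).Point, GD H U c' ∧ (∀ᶠ k in (U : Filter ℕ), c' k = μ (c k)) ∧
      ∃ C : ℝ, 0 < C ∧ (∀ᶠ k in (U : Filter ℕ), nrs H (c k) ≤ C * nrs H (c' k)) ∧
        ∀ᶠ k in (U : Filter ℕ), nrs H (c' k) ≤ C * nrs H (c k) := by
  classical
  obtain ⟨C1, hC1⟩ := hμ.up
  obtain ⟨C2, hC2⟩ := hμ.lo
  obtain ⟨C, hCd⟩ : ∃ C, C = max 1 (max C1 C2) := ⟨_, rfl⟩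
  have hC1' : (1 : ℝ) ≤ C := hCd ▸ le_max_left _ _
  have hCp : 0 < C := by linarith
  have hup : ∀ z, nrs H (μ z) ≤ C * nrs H z := fun z => (hC1 z).trans
    (mul_le_mul_of_nonneg_right (hCd ▸ (le_max_left _ _).trans (le_max_right _ _)) (hQ.nonneg _))
  have hlo : ∀ z, nrs H z ≤ C * nrs H (μ z) := fun z => (hC2 z).trans
    (mul_le_mul_of_nonneg_right (hCd ▸ (le_max_right _ _).trans (le_max_right _ _)) (hQ.nonneg _))
  obtain ⟨D, J, _, f, ε, hε, hf, hc, -, hex⟩ := h.sys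
  obtain ⟨E, J', _, f', C', hf', hc', hC'0, htr⟩ := hμ.tr D J f hf hc
  obtain ⟨P0, hP0, hoff⟩ := off_of hf' hc'
  obtain ⟨Z1, hZ1, hnz⟩ := hμ.nz
  have hnz' : ∀ᶠ k in (U : Filter ℕ), ∀ i, μ (c k) i ≠ 0 := by
    filter_upwards [h.ud.gen Z1 hZ1] with k hk
    exact hnz (c k) (fun i => (h.ud.nd k i).1) hk
  have hgen : ∀ Z' : MvPolynomial σ K, Z' ≠ 0 →
      ∀ᶠ k in (U : Filter ℕ), eval (xs (μ (c k))) Z' ≠ 0 := by
    intro Z' hZ'
    obtain ⟨Z, hZ, hZg⟩ := hμ.gen Z' hZ'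
    filter_upwards [h.ud.gen Z hZ, hnz'] with k h1 h2
    exact hZg (c k) (fun i => (h.ud.nd k i).1) h2 h1
  have hnd : ∀ᶠ k in (U : Filter ℕ), ∀ i, μ (c k) i ≠ 0 ∧ ps (μ (c k) i) ≠ 0 := by
    filter_upwards [hnz', hgen (∏ i, Bq W i) (Finset.prod_ne_zero_iff.2 fun i _ => Bq_ne_zero W i)]
      with k h1 h2
    intro i
    refine ⟨h1 i, fun h0 => ?_⟩
    rw [map_prod] at h2
    have h3 := (Pool.Agent.Helper12.SGB.th_EUP K (W i)).1 (μ (c k) i) (h1 i)
    rw [h0] at h3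
    have h5 := Finset.prod_ne_zero_iff.1 h2 i (Finset.mem_univ _)
    rw [eval_Bq] at h5
    exact h5 (by
      show Bf (W i) (xc (μ (c k) i)) = 0
      rw [← h3]; ring)
  obtain ⟨ε', hε'd⟩ : ∃ ε' : ℝ, ε' = ε / (2 * C) := ⟨_, rfl⟩
  have hε' : 0 < ε' := by rw [hε'd]; positivity
  have hoff' : ∀ᶠ k in (U : Filter ℕ), ∃ t, eval (xs (μ (c k))) (f' t) ≠ 0 := by
    filter_upwards [hgen P0 hP0] with k hk
    exact hoff _ hk
  have hex' : ∀ᶠ k in (U : Filter ℕ), ε' * nrs H (μ (c k)) ≤ cH E f' (xs (μ (c k))) := by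
    filter_upwards [hnz', hoff', h.ud.big (2 * C' / ε)] with k h1 h2 h3
    have h4 := htr (c k) (fun i => (h.ud.nd k i).1) h1 h2
    have h5 := hex k
    have h6 : ε' * nrs H (μ (c k)) ≤ ε / 2 * nrs H (c k) := by
      have h7 := mul_le_mul_of_nonneg_left (hup (c k)) hε'.le
      have h8 : ε' * (C * nrs H (c k)) = ε / 2 * nrs H (c k) := by
        rw [hε'd]
        field_simp
      linarith
    have h7 : C' ≤ ε / 2 * nrs H (c k) := by
      have h8 := mul_le_mul_of_nonneg_left h3 (half_pos hε).le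
      have h9 : ε / 2 * (2 * C' / ε) = C' := by
        field_simp
      linarith
    linarith
  have hgood := (hnd.and hoff').and hex'
  obtain ⟨k0, hk0⟩ := hgood.exists
  set c' : ℕ → ∀ i, (W i).Point := fun k =>
    if ((∀ i, μ (c k) i ≠ 0 ∧ ps (μ (c k) i) ≠ 0) ∧ ∃ t, eval (xs (μ (c k))) (f' t) ≠ 0) ∧
      ε' * nrs H (μ (c k)) ≤ cH E f' (xs (μ (c k))) then μ (c k) else μ (c k0) with hc'd
  have heq : ∀ᶠ k in (U : Filter ℕ), c' k = μ (c k) := by
    filter_upwards [hgood] with k hk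
    rw [hc'd]
    exact if_pos hk
  have hall : ∀ k, ((∀ i, c' k i ≠ 0 ∧ ps (c' k i) ≠ 0) ∧ ∃ t, eval (xs (c' k)) (f' t) ≠ 0) ∧
      ε' * nrs H (c' k) ≤ cH E f' (xs (c' k)) := by
    intro k
    by_cases hk : ((∀ i, μ (c k) i ≠ 0 ∧ ps (μ (c k) i) ≠ 0) ∧
      ∃ t, eval (xs (μ (c k))) (f' t) ≠ 0) ∧ ε' * nrs H (μ (c k)) ≤ cH E f' (xs (μ (c k)))
    · have : c' k = μ (c k) := if_pos hk
      rw [this]
      exact hk
    · have : c' k = μ (c k0) := if_neg hk
      rw [this]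
      exact hk0
  refine ⟨c', ⟨⟨fun k => (hall k).1.1, fun Z hZ => ?_, fun R => ?_, fun θ K0 hθ => ?_⟩, ?_⟩, heq,
    C, hCp, ?_, ?_⟩
  · filter_upwards [hgen Z hZ, heq] with k h1 h2
    rw [h2]
    exact h1
  · filter_upwards [h.ud.big (C * R), heq] with k h1 h2
    rw [h2]
    have h3 := hlo (c k)
    exact le_of_mul_le_mul_left (h1.trans h3) hCp
  · filter_upwards [h.ud.al (θ / C) (|K0| * C ^ 2) (by positivity), heq] with i h1 h2
    filter_upwards [h1, heq] with j h3 h4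
    rw [h2, h4]
    obtain ⟨a1, e, a2⟩ := h3
    have hNa := hQ.nonneg (c i)
    refine ⟨?_, e, ?_⟩
    · have h5 := hup (c i)
      have h6 := hlo (c j)
      have h7 : K0 * nrs H (μ (c i)) ≤ |K0| * (C * nrs H (c i)) :=
        (mul_le_mul_of_nonneg_right (le_abs_self K0) (hQ.nonneg _)).trans
          (mul_le_mul_of_nonneg_left h5 (abs_nonneg _))
      have h8 : C * (|K0| * (C * nrs H (c i))) ≤ C * nrs H (μ (c j)) := by
        refine le_trans (le_of_eq ?_) (a1.trans h6)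
        ring
      exact h7.trans (le_of_mul_le_mul_left h8 hCp)
    · have h5 : (2 ^ e) • μ (c i) - μ (c j) = μ ((2 ^ e) • c i - c j) := by
        rw [map_sub, map_nsmul]
      rw [h5]
      have h6 := hup ((2 ^ e) • c i - c j)
      have h7 := hlo (c j)
      have h8 : C * nrs H ((2 ^ e) • c i - c j) ≤ C * ((θ / C) ^ 2 * nrs H (c j)) :=
        mul_le_mul_of_nonneg_left a2 hCp.le
      have h9 : C * ((θ / C) ^ 2 * nrs H (c j)) ≤
          C * ((θ / C) ^ 2 * (C * nrs H (μ (c j)))) :=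
        mul_le_mul_of_nonneg_left (mul_le_mul_of_nonneg_left h7 (by positivity)) hCp.le
      have h10 : C * ((θ / C) ^ 2 * (C * nrs H (μ (c j)))) = θ ^ 2 * nrs H (μ (c j)) := by
        field_simp
      linarith
  · exact ⟨E, J', inferInstance, f', ε', hε', hf', hc', fun k => (hall k).1.2,
      fun k => (hall k).2⟩
  · filter_upwards [heq] with k hk
    rw [hk]
    exact hlo _
  · filter_upwards [heq] with k hk
    rw [hk]
    exact hup _


/-! ## The end: the coordinates which are not slow are free -/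

omit [DecidableEq K] [Fintype σ] in
/-- restriction of a low relation along an injection -/
theorem lo_comp {τ : Type} (ρ : τ → σ) (hρ : Function.Injective ρ) {I : Finset σ}
    (hI : ∀ i ∈ I, ∃ t, ρ t = i) {D : ℕ} {A : ℝ} {x : σ → K} [Fintype τ] (h : Lo I D A x) :
    Lo Finset.univ D A (fun t => x (ρ t)) := by
  obtain ⟨g, h1, h2, h3, h4, h5⟩ := h
  have hv : (g.vars : Set σ) ⊆ Set.range ρ := by
    intro i hi
    by_contra hc
    have hiI : i ∉ I := fun hI' => hc (hI i hI')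
    have h6 := h3 i hiI
    rw [degreeOf_def, Multiset.count_eq_zero] at h6
    refine h6 ?_
    have h7 : i ∈ g.vars := hi
    rw [vars_def, Multiset.mem_toFinset] at h7
    convert h7
  obtain ⟨g', rfl⟩ := exists_rename_eq_of_vars_subset_range g ρ hρ hv
  refine ⟨g', ?_, fun t => ?_, fun t ht => absurd (Finset.mem_univ t) ht, ?_, ?_⟩
  · rintro rfl
    exact h1 (map_zero _)
  · have := degreeOf_rename_of_injective (p := g') hρ t
    rw [← this]
    exact h2 _
  · rw [eval_rename] at h4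
    exact h4
  · rw [Pool.Agent.Helper51.HC.LOR.PH_rename _ hρ] at h5
    exact h5

/-- the slow coordinates -/
def SC (H : ∀ i, (W i).Point → ℝ) (U : Ultrafilter ℕ) (c : ℕ → ∀ i, (W i).Point) : Set σ :=
  {i | (fun k => c k i) ∈ slowP U (fun k => nrs H (c k)) (H i)}

/-- **the end**: if the coordinates which are not slow are free then there is no good sequence -/
theorem gd_false (hP : S_P1S) (hE : EMS) (hW : ∀ i, (W i).IsElliptic)
    {H : ∀ i, (W i).Point → ℝ} {c₀ : ℝ} (hH : ∀ i, CanH (W i) (H i) c₀) (hQ : IsQuad (nrs H))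
    {U : Ultrafilter ℕ} {c : ℕ → ∀ i, (W i).Point} (h : GD H U c) {r : ℕ} (ρ : Fin r → σ)
    (hρ : Function.Injective ρ) (hSC : ∀ i, i ∉ Set.range ρ → i ∈ SC H U c)
    (hfree : Free U (fun k => nrs H (c k)) (fun j k => xc (c k (ρ j)))) : False := by
  classical
  obtain ⟨D, J, _, f, ε, hε, hf, hc, hoff, hex⟩ := h.sys
  have hU := h.ud
  obtain ⟨S, hSd⟩ : ∃ S : Finset σ, S = Finset.univ.filter fun i => i ∉ Set.range ρ := ⟨_, rfl⟩
  have hS : ∀ a ∈ S, ∀ δ : ℝ, 0 < δ → ∀ᶠ j in (U : Filter ℕ),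
      logHeight₁ (xs (c j) a) ≤ δ * nrs H (c j) := by
    intro a ha δ hδ
    have h1 : a ∈ SC H U c := hSC a (by rw [hSd] at ha; exact (Finset.mem_filter.1 ha).2)
    filter_upwards [h1 (δ / 2) (half_pos hδ), hU.big (2 * c₀ / δ)] with k h2 h3
    have h4 := abs_le.1 ((hH a).near (c k a))
    have h5 : logHeight₁ (xs (c k) a) = hx (c k a) := rfl
    have h6 := mul_le_mul_of_nonneg_left h3 (half_pos hδ).le
    have h7 : δ / 2 * (2 * c₀ / δ) = c₀ := by
      field_simp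
    have h2' : H a (c k a) ≤ δ / 2 * nrs H (c k) := h2
    rw [h5]
    linarith
  have hN0 : ∀ k, 0 ≤ nrs H (c k) := fun k => hQ.nonneg _
  rcases Nat.eq_zero_or_pos D with hD0 | hD
  · -- `D = 0`
    subst hD0
    obtain ⟨cB, hcB, hB⟩ := Pool.Agent.Helper60.HC.th_CHB K σ 0 J f hf
    obtain ⟨k, hk⟩ := (hU.big (cB / ε + 1)).exists
    have h1 := (hB (xs (c k)) (hoff k)).1
    rw [Nat.cast_zero, zero_mul, zero_add] at h1
    have h2 := hex k
    have h3 := mul_le_mul_of_nonneg_left hk hε.le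
    have h4 : ε * (cB / ε + 1) = cB + ε := by
      field_simp
    linarith
  by_cases hcard : 2 ≤ Fintype.card {i // i ∉ S}
  · obtain ⟨D', C', hlo⟩ := Pool.Agent.Helper19.TN.p1_step hP hW hH hQ hf hc hD hε hU hoff hex S hS
      hcard
    obtain ⟨η, hη, hfr⟩ := hfree D'
    obtain ⟨i, hi1, hi2⟩ := (hlo.and (hU.big (|C'| / η + 1))).exists
    obtain ⟨j, hj1, hj2⟩ := (hi1.and hfr).exists
    refine hj2 ?_
    have h1 := lo_comp ρ hρ (I := Finset.univ \ S) (by
      intro i hi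
      have h2 := (Finset.mem_sdiff.1 hi).2
      rw [hSd] at h2
      by_contra hno
      exact h2 (Finset.mem_filter.2 ⟨Finset.mem_univ _, fun ⟨t, ht⟩ => hno ⟨t, ht⟩⟩)) hj1
    obtain ⟨g, g1, g2, g3, g4, g5⟩ := h1
    refine ⟨g, g1, g2, g3, g4, g5.trans ?_⟩
    have hNi : 0 < nrs H (c i) := by
      have : 0 ≤ |C'| / η := by positivity
      linarith
    rw [← mul_div_assoc, div_le_iff₀ hNi]
    have h3 : C' ≤ η * nrs H (c i) := by
      have h4 := mul_le_mul_of_nonneg_left hi2 hη.le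
      have h5 : η * (|C'| / η + 1) = |C'| + η := by
        field_simp
      have := le_abs_self C'
      linarith
    have h4 := mul_le_mul_of_nonneg_right h3 (hN0 j)
    linarith
  · -- at most one coordinate is not slow
    have hc2 : Fintype.card σ ≤ S.card + 1 := by
      have h1 : Fintype.card {i // i ∉ S} = Fintype.card σ - S.card := by
        rw [Fintype.card_subtype_compl]
        simp
      have h2 : S.card ≤ Fintype.card σ := Finset.card_le_univ S
      omega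
    obtain ⟨Δ, C, hΔ, hC, hb⟩ := hE K σ 1 D J f hf hc S hc2
    set δ := ε / (2 * (C * S.card + 1)) with hδ
    have hδ0 : 0 < δ := by positivity
    have hsl : ∀ᶠ j in (U : Filter ℕ), ∀ a ∈ S, logHeight₁ (xs (c j) a) ≤ δ * nrs H (c j) := by
      rw [Finset.eventually_all]
      exact fun a ha => hS a ha δ hδ0
    obtain ⟨j, ⟨hj1, hj2⟩, hj3⟩ := ((hsl.and (hU.gen Δ hΔ)).and (hU.big (2 * C / ε + 1))).exists
    have h1 := hb _ hj2
    have h2 := hex j
    have h3 : ∑ i ∈ S, logHeight₁ (xs (c j) i) ≤ S.card * (δ * nrs H (c j)) := by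
      have := Finset.sum_le_sum hj1
      rwa [Finset.sum_const, nsmul_eq_mul] at this
    have h4 : C * (S.card * (δ * nrs H (c j))) ≤ ε / 2 * nrs H (c j) := by
      have h5 : C * S.card * δ ≤ ε / 2 := by
        have h6 : δ * (2 * (C * S.card + 1)) = ε := by
          rw [hδ]
          field_simp
        nlinarith
      have := mul_le_mul_of_nonneg_right h5 (hN0 j)
      linarith
    have h5 := mul_le_mul_of_nonneg_left h3 hC
    have h6 : ε / 2 * (2 * C / ε + 1) ≤ ε / 2 * nrs H (c j) :=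
      mul_le_mul_of_nonneg_left hj3 (half_pos hε).le
    have h7 : ε / 2 * (2 * C / ε + 1) = C + ε / 2 := by
      field_simp
    linarith

/-! ## The reduction of the theorem to good sequences -/

/-- if there are no good sequences then the theorem holds -/
theorem main_gd {H : ∀ i, (W i).Point → ℝ} {c₀ : ℝ} (hc0 : 0 ≤ c₀)
    (hH : ∀ i, CanH (W i) (H i) c₀)
    (hno' : ∀ (U : Ultrafilter ℕ) (c : ℕ → ∀ i, (W i).Point), ¬ GD H U c) :
    MAINW K σ W := by
  classical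
  intro Γ hΓ D ι _ f hf hc ε hε
  have hxn : ∀ z : ∀ i, (W i).Point, 0 ≤ ∑ i, hx (z i) := fun z =>
    Finset.sum_nonneg fun i _ => by
      unfold hx
      exact Height.zero_le_logHeight₁ _
  have hQ : IsQuad (nrs H) :=
    Pool.Agent.Helper60.HC.th_QPI.1 σ (fun i => (W i).Point) H fun i => (hH i).quad
  obtain ⟨P0, hP0, hoffP⟩ := off_of hf hc
  obtain ⟨cB, hcB, hB⟩ := Pool.Agent.Helper60.HC.th_CHB K σ D ι f hf
  have hh1 : ∀ z : ∀ i, (W i).Point, ∑ i, hx (z i) ≤ nrs H z + Fintype.card σ * c₀ := by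
    intro z
    have : ∑ i, hx (z i) ≤ ∑ i, (H i (z i) + c₀) := Finset.sum_le_sum fun i _ => by
      have := abs_le.1 ((hH i).near (z i))
      linarith
    rw [Finset.sum_add_distrib, Finset.sum_const, Finset.card_univ, nsmul_eq_mul] at this
    exact this
  have hh2 : ∀ z : ∀ i, (W i).Point, nrs H z ≤ ∑ i, hx (z i) + Fintype.card σ * c₀ := by
    intro z
    have : nrs H z ≤ ∑ i, (hx (z i) + c₀) := Finset.sum_le_sum fun i _ => by
      have := abs_le.1 ((hH i).near (z i))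
      linarith
    rw [Finset.sum_add_distrib, Finset.sum_const, Finset.card_univ, nsmul_eq_mul] at this
    exact this
  have hcB' : ∀ z : ∀ i, (W i).Point, eval (xs z) P0 ≠ 0 →
      cH D f (xs z) ≤ D * ∑ i, hx (z i) + cB := fun z hz => (hB (xs z) (hoffP _ hz)).1
  rcases Nat.eq_zero_or_pos D with hD0 | hD
  · refine ⟨P0, cB, hP0, hcB, fun z _ _ hz => ?_⟩
    have h1 := hcB' z hz
    rw [hD0, Nat.cast_zero, zero_mul, zero_add] at h1
    have h2 : 0 ≤ ε * ∑ i, hx (z i) := mul_nonneg hε.le (hxn z)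
    rw [hD0]
    linarith
  by_contra hno
  push Not at hno
  have hn0 : (0 : ℝ) ≤ Fintype.card σ * c₀ := by positivity
  obtain ⟨y, U, hy, hgen, hbig, hal⟩ := Pool.Agent.Helper12.T3.ULT.t
    Pool.Agent.Helper54.SGM.t_CLS K σ (∀ i, (W i).Point) (AddSubgroup.pi Set.univ Γ)
    (Pool.Agent.Helper60.HC.th_QPI.2 σ (fun i => (W i).Point) Γ hΓ) (nrs H) hQ xs
    (fun z => (∀ i, z i ≠ 0 ∧ ps (z i) ≠ 0) ∧ (∃ t, eval (xs z) (f t) ≠ 0) ∧
      ε * nrs H z ≤ cH D f (xs z)) (by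
      intro Z R hZ
      set Z' := Z * P0 * ∏ i, Bq W i with hZ'
      have hZ'0 : Z' ≠ 0 := mul_ne_zero (mul_ne_zero hZ hP0)
        (Finset.prod_ne_zero_iff.2 fun i _ => Bq_ne_zero W i)
      set c' := ε * (Fintype.card σ * c₀) + (D * (|R| + Fintype.card σ * c₀) + cB) with hc'
      have hc'0 : 0 ≤ c' := by positivity
      obtain ⟨z, hz1, hz2, hz3, hz4⟩ := hno Z' c' hZ'0 hc'0
      rw [hZ', map_mul, map_mul, map_prod] at hz3
      have a1 := left_ne_zero_of_mul hz3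
      have a2 := right_ne_zero_of_mul hz3
      have a3 := left_ne_zero_of_mul a1
      have a4 := right_ne_zero_of_mul a1
      have h1 := hh1 z
      have h2 := hh2 z
      refine ⟨z, ?_, ⟨fun i => ⟨hz2 i, fun h0 => ?_⟩, hoffP _ a4, ?_⟩, a3, ?_⟩
      · rw [AddSubgroup.mem_pi]
        exact fun i _ => hz1 i
      · have := (Pool.Agent.Helper12.SGB.th_EUP K (W i)).1 (z i) (hz2 i)
        rw [h0] at this
        have h5 := Finset.prod_ne_zero_iff.1 a2 i (Finset.mem_univ _)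
        rw [eval_Bq] at h5
        exact h5 (by
          show Bf (W i) (xc (z i)) = 0
          rw [← this]; ring)
      · have h3 := mul_le_mul_of_nonneg_left h2 hε.le
        have h4 : 0 ≤ (D : ℝ) * (|R| + Fintype.card σ * c₀) + cB := by positivity
        linarith
      · by_contra hlt
        push Not at hlt
        have h3 := hcB' z a4
        have h4 : (D : ℝ) * ∑ i, hx (z i) ≤ D * (|R| + Fintype.card σ * c₀) := by
          refine mul_le_mul_of_nonneg_left ?_ (Nat.cast_nonneg _)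
          have := le_abs_self R
          linarith
        have h5 : 0 ≤ ε * ∑ i, hx (z i) := mul_nonneg hε.le (hxn z)
        have h6 : 0 ≤ ε * (Fintype.card σ * c₀) := mul_nonneg hε.le hn0
        linarith)
  have hUD : UD U (nrs H) y := ⟨fun k => (hy k).2.1, hgen, hbig, hal⟩
  exact hno' U y ⟨hUD, D, ι, inferInstance, f, ε, hε, hf, hc,
    fun k => (hy k).2.2.1, fun k => (hy k).2.2.2⟩

end

end Pool.Agent.Helper3.TG
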