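import Pool.Agent.Helper92.ZH.Goals
import Pool.Agent.Helper60.HC.GoalsP
import Pool.Agent.Helper42.SG.GoalsB

/-!
# Project TG (MP_a41896_nt), TRANSFER: the centre under the elementary step `z_b ↦ z_b + z_a` (same curve `w`)

`TH w (x(P)) (x(Q)) (x(P + Q)) = 0`.  The centre `f` in the variables `x_i` is replaced by a centre `f'` in the variables
`x_i` (`i ≠ b`), `y = x(z_b + z_a)`.  Result: TRF (with `cH`), GENP (genericity), THX (points).

All goals are independent; the allowed hypotheses are named.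
-/

set_option autoImplicit false

open MvPolynomial

namespace Pool.Agent.Helper3.TG

open WeierstrassCurve Height
open Pool.Agent.Helper29.BL Pool.Agent.Helper92.Ru Pool.Agent.Helper42.SG
open Pool.Agent.Helper5.UN (hv CodimGT cH)
open Pool.Agent.Helper60.HC (S_ELOC2 S_CHB)
open Pool.Agent.Helper92.ZH (RESE)

noncomputable section

/-- the relation between `x(P)`, `x(Q)`, `x(P + Q)`; symmetric in the three variables -/
def TH {R : Type} [CommRing R] (W : WeierstrassCurve R) (x y t : R) : R :=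
  x ^ 2 * y ^ 2 + y ^ 2 * t ^ 2 + t ^ 2 * x ^ 2 - 2 * (x * y * t) * (x + y + t) -
    W.b₂ * (x * y * t) - W.b₄ * (x * y + y * t + t * x) - W.b₆ * (x + y + t) - W.b₈

/-- the form of multidegree `(2, 2, 2)` of `TH` -/
def THh {R : Type} [CommRing R] (W : WeierstrassCurve R) (p q r : Fin 2 → R) : R :=
  p 0 ^ 2 * q 0 ^ 2 * r 1 ^ 2 + q 0 ^ 2 * r 0 ^ 2 * p 1 ^ 2 + r 0 ^ 2 * p 0 ^ 2 * q 1 ^ 2 -
    2 * (p 0 * q 0 * r 0) * (p 0 * q 1 * r 1 + q 0 * p 1 * r 1 + r 0 * p 1 * q 1) -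
    W.b₂ * (p 0 * q 0 * r 0 * (p 1 * q 1 * r 1)) -
    W.b₄ * (p 0 * q 0 * p 1 * q 1 * r 1 ^ 2 + q 0 * r 0 * q 1 * r 1 * p 1 ^ 2 +
      r 0 * p 0 * r 1 * p 1 * q 1 ^ 2) -
    W.b₆ * (p 0 * p 1 * q 1 ^ 2 * r 1 ^ 2 + q 0 * q 1 * p 1 ^ 2 * r 1 ^ 2 +
      r 0 * r 1 * p 1 ^ 2 * q 1 ^ 2) - W.b₈ * (p 1 ^ 2 * q 1 ^ 2 * r 1 ^ 2)

/-- `TH` as a polynomial in the variables `a, b, c` -/
def ThP {K : Type} [Field K] {σ : Type} (w : Affine K) (a b c : σ) : MvPolynomial σ K :=
  TH (w.map (C : K →+* MvPolynomial σ K)) (X a) (X b) (X c)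

/-! ## The relation -/

/-- **THX** (points). Hypothesis allowed: ELAW (`Helper42.SG`; landed `Pool.Agent.Helper12.SGB.th_ELAW`).
PROOF. ELAW with `e = 0` for `P, Q`: `Ph W 0 x = (x, 1)`, `Rr W 0 x = 1`, so with `U = (x-c)²`, `T = Th W c x 1`, `S = Sh W c x 1`, `η = ψ(P)ψ(Q)`, `t = x(P+Q)`: law true = `(T - η, 2S)`, law false = `(2U, T + η)`, and law true = `t *` law false (`P + Q ≠ 0`): `T - η = 2 t U`, `2 S = t (T + η)`.
So `2 (t² U - t T + S) = t (T - η) - 2 t T + t (T + η) = 0`, and `TH W x c t = t² U - t T + S` (`ring`). -/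
def THX : Prop :=
  ∀ (F : Type) [Field F] [DecidableEq F] (W : Affine F) [W.IsElliptic] (P Q : W.Point),
    (2 : F) ≠ 0 → P ≠ 0 → Q ≠ 0 → P + Q ≠ 0 → TH W (xc P) (xc Q) (xc (P + Q)) = 0

/-- **THN** (non-degeneracy: `r` is algebraic over `p, q`, also at infinity). No hypotheses.
PROOF. `THh w p q r = α r_0² + β r_0 r_1 + γ r_1²` with `α = (p_0 q_1 - q_0 p_1)²`, `β = -2 (p_0² q_0 q_1 + p_0 p_1 q_0²) - b₂ p_0 p_1 q_0 q_1 - b₄ (q_0 q_1 p_1² + p_0 p_1 q_1²) - b₆ p_1² q_1²`, `γ = p_0² q_0² - b₄ p_0 p_1 q_0 q_1 - b₆ (p_0 p_1 q_1² + q_0 q_1 p_1²) - b₈ p_1² q_1²` (`ring`).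
`r = (1, 0)`: `r_0 = 1` is algebraic. `r_1 = 1`: `α r_0² + β r_0 + γ = 0`, and `α, β, γ` are in the field of the elements algebraic over `F` (`algebraicClosure F Ω` is a subfield which contains `p_0, q_0`, the `p_1, q_1 ∈ {0, 1}` and the image of `K`), so `r_0` is algebraic over `F` if `(α, β, γ) ≠ 0`.
Suppose `α = β = γ = 0`: `p_0 q_1 = q_0 p_1`. If `p_1 = 0` then `p_0 = 1`, so `q_1 = 0`, `q_0 = 1`, `γ = 1`. If `p_1 = 1`: `q_0 = p_0 q_1`, so `q_1 ≠ 0`, `q_1 = 1`, `q_0 = p_0 =: x`: `β = -(4x³ + b₂x² + 2b₄x + b₆)`, `γ = x⁴ - b₄x² - 2b₆x - b₈`, and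
`(48x² + 8b₂x + 32b₄ - b₂²) γ + (12x³ - b₂x² - 10b₄x + b₂b₄ - 27b₆) β = -Δ` up to sign (write the `b_i` by the `a_i` or use `b_relation : 4b₈ = b₂b₆ - b₄²`; `linear_combination`); `Δ ≠ 0`. -/
def THN : Prop :=
  ∀ (K : Type) [Field K] [CharZero K] (w : Affine K), w.IsElliptic → ∀ (Ω : Type) [Field Ω]
    [Algebra K Ω] (F : IntermediateField K Ω) (p q r : Fin 2 → Ω), (p 1 = 1 ∨ p = ![1, 0]) →
    (q 1 = 1 ∨ q = ![1, 0]) → (r 1 = 1 ∨ r = ![1, 0]) →
    THh (w.map (algebraMap K Ω)) p q r = 0 → IsAlgebraic F (p 0) → IsAlgebraic F (q 0) →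
    IsAlgebraic F (r 0)

/-- **GENT** (genericity). Hypothesis allowed: THN.
PROOF. `y` is transcendental over `k := K(x_i : i ≠ b)` (in the sense: the family `x_i` (`i ≠ b`), `y` is independent): otherwise `y` is algebraic over `k`, `x_a ∈ k` (`a ≠ b`), `TH` is symmetric, so by THN (`p = (x_a, 1)`, `q = (y, 1)`, `r = (x_b, 1)`, `THh` at such pairs is `TH`) `x_b` is algebraic over `k`: contradiction.
(`AlgebraicIndependent` for a family and one more element: `AlgebraicIndependent.option_iff`, `algebraicIndependent_insert`-type lemmas or the matroid; reindex `σ ≃ Option {i // i ≠ b}`.) -/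
def GENT : Prop :=
  ∀ (K : Type) [Field K] [CharZero K] (w : Affine K), w.IsElliptic → ∀ (σ : Type) [Fintype σ]
    [DecidableEq σ] (Ω : Type) [Field Ω] [Algebra K Ω] (x : σ → Ω) (y : Ω) (a b : σ), a ≠ b →
    AlgebraicIndependent K x → TH (w.map (algebraMap K Ω)) (x a) (x b) y = 0 →
    AlgebraicIndependent K (Function.update x b y)

/-- **GENP** (genericity, polynomials). Hypotheses allowed: GENT, RESE (`Helper92.ZH.RESE`, landed `Pool.Agent.Helper92.ZH.Main.th_RESE`).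
PROOF. `V := Option σ`, `g := ThP w (some a) (some b) none` (degrees `≤ 2`, `g.degreeOf none = 2 ≥ 1`: the coefficient of `X_none² X_(some a)²` is `1`), `Q := rename (fun i => if i = b then none else some i) Z'` (injective). RESE with `h0 = none`: `R = α g + β Q`, `R.degreeOf none = 0`, so `R = rename some Z`
(`exists_rename_eq_of_vars_subset_range`). If `TH = 0` and `Z'(update x b y) = 0` then `g = Q = 0` at the point `o ↦ o.elim y x`, so `Z(x) = 0`. `Z ≠ 0`: take `Ω` algebraically closed and `x : σ → Ω` algebraically independent (`Pool.Agent.Helper44.ZH.NRH.exists_generic`); the last part of RESE at the point `o ↦ o.elim 0 x`: a polynomial `p ≠ 0` with degree `0` in `none`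
is `rename some p'`, so its value is `p'(x) ≠ 0`; for a root `t` of `g` we have `TH (x a) (x b) t = 0`, so by GENT `update x b t` is independent and `Z'(update x b t) ≠ 0`. -/
def GENP : Prop :=
  ∀ (K : Type) [Field K] [NumberField K] (w : Affine K), w.IsElliptic → ∀ (σ : Type) [Fintype σ]
    [DecidableEq σ] (a b : σ), a ≠ b → ∀ Z' : MvPolynomial σ K, Z' ≠ 0 →
    ∃ Z : MvPolynomial σ K, Z ≠ 0 ∧ ∀ (x : σ → K) (y : K), TH w (x a) (x b) y = 0 →
      eval (Function.update x b y) Z' = 0 → eval x Z = 0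

/-! ## Forms -/

/-- **HVM** (products and renaming of forms). No hypotheses.
PROOF. (1) the left side is additive in `f` and in `g` (`G_HVB` (1), (2), or bilinear expansion), so reduce to monomials: `(E + E') - (m + m') = (E - m) + (E' - m')` for `m ≤ E`, `m' ≤ E'`. (Both sides can be written as sums over `f.support × g.support`: `hv` is a sum over any finite set containing the support.)
(2) `support_rename_of_injective`, `coeff_rename_mapDomain`; the exponent of a variable outside the range is `0`. -/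
def HVM : Prop :=
  (∀ (R S : Type) [CommRing R] [CommRing S] (φ : R →+* S) (σ : Type) [Fintype σ]
    (E E' : σ → ℕ) (f g : MvPolynomial σ R) (y : σ → Fin 2 → S), (∀ i, degreeOf i f ≤ E i) →
    (∀ i, degreeOf i g ≤ E' i) →
    hv φ (fun i => E i + E' i) (f * g) y = hv φ E f y * hv φ E' g y) ∧
  ∀ (R S : Type) [CommRing R] [CommRing S] (φ : R →+* S) (σ τ : Type) [Fintype σ] [Fintype τ]
    [DecidableEq τ] (ρ : σ → τ) (E : τ → ℕ) (f : MvPolynomial σ R) (y : τ → Fin 2 → S),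
    Function.Injective ρ →
    hv φ E (rename ρ f) y = hv φ (fun i => E (ρ i)) f (fun i => y (ρ i)) *
      ∏ t ∈ Finset.univ.filter (fun t => ∀ i, ρ i ≠ t), y t 1 ^ E t

/-- **HVT** (the form of `ThP`). No hypotheses.
PROOF. `ThP` is an explicit polynomial; `hv` with the exponents `2` on `a, b, c` (and `0` elsewhere); expand with additivity and the value of `hv` on monomials; or: both sides are polynomial identities, check them for the generic pairs: use `G_HVB` (3), (4) (scaling: at pairs with second coordinate invertible `hv` is `∏ (second)^(E) *` the value) over the field of fractions of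
`MvPolynomial (σ × Fin 2) S`..; the direct computation with a sum of `13` monomials is also fine. Degrees: each of the monomials has degree `≤ 2` in each variable. -/
def HVT : Prop :=
  ∀ (K : Type) [Field K] (w : Affine K) (σ : Type) [Fintype σ] [DecidableEq σ] (a b c : σ),
    a ≠ b → b ≠ c → a ≠ c →
    (∀ i, degreeOf i (ThP w a b c) ≤ if i = a ∨ i = b ∨ i = c then 2 else 0) ∧
    ∀ (Ω : Type) [Field Ω] [Algebra K Ω] (y : σ → Fin 2 → Ω),
      hv (algebraMap K Ω) (fun i => if i = a ∨ i = b ∨ i = c then 2 else 0) (ThP w a b c) y =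
        THh (w.map (algebraMap K Ω)) (y a) (y b) (y c)

/-! ## The enlarged system -/

/-- **ENL** (the enlarged system). Hypotheses allowed: HVM, HVT, THN.
PROOF. `D' := D + 2`. `ι' := (ι × (Option σ → Bool)) ⊕ (Option σ → Bool)`; `f' (inl (j, β)) := rename some (f j) * ∏_i X_(some i)^(if β (some i) then 2 else 0) * X_none^(if β none then D + 2 else 0)`; `f' (inr β) := ThP w (some a) (some b) none * ∏_o X_o^(if β o then (if o ∈ {some a, some b, none} then D else D + 2) else 0)`. Degrees `≤ D + 2`.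
FORMS (HVM, HVT; `hv` of `X_o^k` with exponent `E` at `o` is `y_o0^k y_o1^(E-k)`): `hv (D+2) (f' (inl (j, β))) y = hv D (f j) (y ∘ some) * ∏_i (y_i0 or y_i1)^2 * (Y_0 or Y_1)^(D+2)`, `hv (D+2) (f' (inr β)) y = THh (y_a) (y_b) (Y) * ∏ (..)`. CODIMENSION: let `y` be a common zero, `β o := (y_o0 ≠ 0)`; if `β o` is false then `y_o 1 = 1`; so the monomials are not `0`,
and `hv D (f j) (y ∘ some) = 0` for all `j`, `THh (y (some a)) (y (some b)) (y none) = 0`. CodimGT for `f` gives `T`, `|T| + 1 < |σ|`, all `y (some i) 0` algebraic over `K(T)`, and by THN `y none 0`, too: `|T| + 2 < |σ| + 1`.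
LOCAL: `eval (..) (f' (inr β)) = 0` because of `TH = 0`; `v (eval (f' (inl (j, β)))) ≤ v (eval x (f j)) * (∏ Mv v (x i))^2 * Mv v y^(D+2)` (`Mv v t = max 1 (v t)`); so the supremum over `ι'` (finite, not empty) is `≤ (⨆ v (f_j(x))) (∏ Mv)^2 (Mv v y)^(D+2)` (also if `ι` is empty); multiply by `(∏ Mv)^D`. -/
def ENL : Prop :=
  ∀ (K : Type) [Field K] [NumberField K] (w : Affine K), w.IsElliptic → ∀ (σ : Type) [Fintype σ]
    [DecidableEq σ] (D : ℕ) (ι : Type) [Fintype ι] (f : ι → MvPolynomial σ K),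
    (∀ j i, degreeOf i (f j) ≤ D) → CodimGT D f 1 → ∀ a b : σ, a ≠ b →
    ∃ (D' : ℕ) (ι' : Type) (_ : Fintype ι') (f' : ι' → MvPolynomial (Option σ) K),
      (∀ j i, degreeOf i (f' j) ≤ D') ∧ CodimGT D' f' 2 ∧
      ∀ (v : AbsoluteValue K ℝ) (x : σ → K) (y : K), TH w (x a) (x b) y = 0 →
        (⨆ j, v (eval (fun o : Option σ => o.elim y x) (f' j))) * (∏ i, Mv v (x i)) ^ D ≤
          (∏ i, Mv v (x i)) ^ D' * Mv v y ^ D' * ⨆ j, v (eval x (f j))

/-- **LPRJ** (projections, local form). Hypothesis allowed: S_ELOC2 (landed).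
PROOF. The proof of S_PRJ (landed: `Pool/Agent/Helper61/HC/PRJ.lean`; docstring in `Helper60/HC/GoalsP.lean`) gives exactly this: the same `f'`, the codimension, and the LOCAL inequality `max_(i,b) v(f'(i,b)(x_I)) * (∏_σ Mv)^D ≤ B_v (∏_I Mv)^E max_j v(f_j(x))` for all `v` and `x`. -/
def LPRJ : Prop :=
  ∀ (K : Type) [Field K] [NumberField K] (σ : Type) [Fintype σ] [DecidableEq σ] (s D : ℕ)
    (ι : Type) [Fintype ι]
    (f : ι → MvPolynomial σ K), (∀ j i, degreeOf i (f j) ≤ D) → CodimGT D f s →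
    ∀ I : Finset σ, I.card + s = Fintype.card σ + 1 → 1 ≤ I.card →
    ∃ (E : ℕ) (J : Type) (_ : Fintype J) (f' : J → MvPolynomial {i // i ∈ I} K)
      (B : AbsoluteValue K ℝ → ℝ), (∀ j i, degreeOf i (f' j) ≤ E) ∧ CodimGT E f' 1 ∧ PlC B ∧
      ∀ (v : AbsoluteValue K ℝ) (x : σ → K),
        (⨆ j, v (eval (fun i : {i // i ∈ I} => x i.1) (f' j))) * (∏ i, Mv v (x i)) ^ D ≤
          B v * (∏ i : {i // i ∈ I}, Mv v (x i.1)) ^ E * ⨆ j, v (eval x (f j))

/-- **RENC** (renaming by an equivalence). No hypotheses.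
PROOF. `hv φ E (rename e f) y = hv φ E (f) (y ∘ e)` (or HVM (2) with an empty product): a common zero `y` of the `rename e (f j)` gives the common zero `y ∘ e` of the `f j`. -/
def RENC : Prop :=
  ∀ (K : Type) [Field K] (σ τ : Type) [Fintype σ] [Fintype τ] [DecidableEq τ] (e : σ ≃ τ)
    (D s : ℕ) (ι : Type) (f : ι → MvPolynomial σ K), CodimGT D f s →
    CodimGT D (fun j => rename e (f j)) s

/-- **LTRF** (transfer, local form). Hypotheses allowed: ENL, LPRJ, RENC.
PROOF. ENL gives `D', f'` on `Option σ`, `s = 2`; LPRJ with `I := univ.erase (some b)`, `|I| + 2 = |σ| + 2 = |Option σ| + 1`, `1 ≤ |I|` (`|σ| ≥ 1`): `E, f''` on `{o // o ∈ I}`; `e : {o // o ∈ I} ≃ σ`, `some i ↦ i` (`i ≠ b`), `none ↦ b`; `f''' := rename e (f'' j)`. For `x⁺ := fun o => o.elim y x` and `x' := update x b y`: `x' (e o) = x⁺ o.1` for `o ∈ I`, so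
`eval x' (f''' j) = eval (fun o => x⁺ o.1) (f'' j)` and `∏_(o ∈ I) Mv (x⁺ o) = ∏_i Mv (x' i)`. `∏_(Option σ) Mv (x⁺ o) = (∏ Mv (x i)) * Mv y`. Combine the two inequalities, `A := ∏ Mv (x i) ≥ 1`, `Y := Mv y ≥ 1`: `F''' (A Y)^(D') ≤ B A'^E F'` and `F' A^D ≤ A^(D') Y^(D') F`, so `F''' (A Y)^(D') A^D ≤ B A'^E (A Y)^(D') F`; cancel. -/
def LTRF : Prop :=
  ∀ (K : Type) [Field K] [NumberField K] (w : Affine K), w.IsElliptic → ∀ (σ : Type) [Fintype σ]
    [DecidableEq σ] (D : ℕ) (ι : Type) [Fintype ι] (f : ι → MvPolynomial σ K),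
    (∀ j i, degreeOf i (f j) ≤ D) → CodimGT D f 1 → ∀ a b : σ, a ≠ b →
    ∃ (E : ℕ) (J : Type) (_ : Fintype J) (f' : J → MvPolynomial σ K)
      (B : AbsoluteValue K ℝ → ℝ), (∀ j i, degreeOf i (f' j) ≤ E) ∧ CodimGT E f' 1 ∧ PlC B ∧
      ∀ (v : AbsoluteValue K ℝ) (x : σ → K) (y : K), TH w (x a) (x b) y = 0 →
        (⨆ j, v (eval (Function.update x b y) (f' j))) * (∏ i, Mv v (x i)) ^ D ≤
          B v * (∏ i, Mv v (Function.update x b y i)) ^ E * ⨆ j, v (eval x (f j))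

/-- **TRF** (transfer). Hypotheses allowed: LTRF, S_CHB (landed).
PROOF. LTRF. Let `f'_(j₀)(x') ≠ 0`, `x' = update x b y`. `F'_v := ⨆ v(f'_j(x')) > 0`, so by the local inequality `F_v := ⨆ v(f_j(x)) > 0` (at any `v`, e.g. one admissible place; `v t = 0` iff `t = 0`), so some `f_j(x) ≠ 0`; and `(∏ Mv x)^D / F_v ≤ B_v (∏ Mv x')^E / F'_v`,
`log⁺(B y) ≤ log⁺ B + log⁺ y`; sum over the places: `FS` of both sides from S_CHB for `f` and `f'` (the relation between `posLog` and `log (rhs ..)`: see the landed proof of S_PRJ, `Pool/Agent/Helper61/HC/PRJ.lean`, which contains exactly this step). `c := PS (log⁺ B)`. -/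
def TRF : Prop :=
  ∀ (K : Type) [Field K] [NumberField K] (w : Affine K), w.IsElliptic → ∀ (σ : Type) [Fintype σ]
    [DecidableEq σ] (D : ℕ) (ι : Type) [Fintype ι] (f : ι → MvPolynomial σ K),
    (∀ j i, degreeOf i (f j) ≤ D) → CodimGT D f 1 → ∀ a b : σ, a ≠ b →
    ∃ (E : ℕ) (J : Type) (_ : Fintype J) (f' : J → MvPolynomial σ K) (c : ℝ),
      (∀ j i, degreeOf i (f' j) ≤ E) ∧ CodimGT E f' 1 ∧ 0 ≤ c ∧
      ∀ (x : σ → K) (y : K), TH w (x a) (x b) y = 0 →
        (∃ j, eval (Function.update x b y) (f' j) ≠ 0) → (∃ j, eval x (f j) ≠ 0) ∧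
        cH D f x ≤ cH E f' (Function.update x b y) + c

end

end Pool.Agent.Helper3.TG
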