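import Pool.Agent.Helper3.TG.EndGA
import Pool.Agent.Helper3.TG.GoalsTr

/-!
# Project TG (MP_a41896_nt): END-G, part B (the elementary move)
-/

set_option autoImplicit false

open MvPolynomial

namespace Pool.Agent.Helper3.TG

open WeierstrassCurve Height
open Pool.Agent.Helper29.BL
open Pool.Agent.Helper92.Ru hiding cmb
open Pool.Agent.Helper42.SG
open Pool.Agent.Helper5.UN (CodimGT cH)
open Pool.Agent.Helper60.HC (Lo nrs xs Bq eval_Bq Bq_ne_zero)
open Pool.Agent.Helper19.PM
open Pool.Agent.Helper19.TN (UD LowU MAINW Pr)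
open Pool.Agent.Helper42.TG (slowP Free)

noncomputable section

variable {K : Type} [Field K] [NumberField K] [DecidableEq K] {σ : Type} [Fintype σ]
  [DecidableEq σ] {ι : Type} {E : ι → Affine K} {cl : σ → ι}

/-- transport of points -/
def tp {c c' : ι} (h : c = c') (P : (E c).Point) : (E c').Point := h ▸ P

omit [NumberField K] in
theorem tp_add {c c' : ι} (h : c = c') (P Q : (E c).Point) :
    tp h (P + Q) = tp h P + tp h Q := by
  subst h
  rfl

omit [NumberField K] in
theorem tp_zsmul {c c' : ι} (h : c = c') (n : ℤ) (P : (E c).Point) :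
    tp h (n • P) = n • tp h P := by
  subst h
  rfl

omit [NumberField K] [DecidableEq K] in
theorem tp_zero {c c' : ι} (h : c = c') : tp h (0 : (E c).Point) = 0 := by
  subst h
  rfl

omit [NumberField K] [DecidableEq K] in
theorem xc_tp {c c' : ι} (h : c = c') (P : (E c).Point) : xc (tp h P) = xc P := by
  subst h
  rfl

omit [NumberField K] [DecidableEq K] in
theorem tp_ne {c c' : ι} (h : c = c') {P : (E c).Point} (hP : P ≠ 0) : tp h P ≠ 0 := by
  subst h
  exact hP

omit [NumberField K] [DecidableEq K] in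
theorem H_tp (H : ∀ c, (E c).Point → ℝ) {c c' : ι} (h : c = c') (P : (E c).Point) :
    H c' (tp h P) = H c P := by
  subst h
  rfl

omit [NumberField K] [DecidableEq K] in
theorem tp_tp {c c' c'' : ι} (h : c = c') (h' : c' = c'') (P : (E c).Point) :
    tp h' (tp h P) = tp (h.trans h') P := by
  subst h
  rfl

/-- the elementary move `z_b ↦ z_b + s z_a` -/
def el (a b : σ) (h : cl a = cl b) (s : ℤ) :
    (∀ i, (E (cl i)).Point) →+ ∀ i, (E (cl i)).Point where
  toFun z := Function.update z b (z b + s • tp h (z a))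
  map_zero' := by
    rw [Pi.zero_apply, Pi.zero_apply, tp_zero, smul_zero, add_zero]
    exact Function.update_eq_self b _
  map_add' z z' := by
    funext i
    by_cases hi : i = b
    · subst hi
      rw [Pi.add_apply, Function.update_self, Pi.add_apply, Pi.add_apply, Function.update_self,
        Function.update_self, tp_add, smul_add]
      abel
    · rw [Function.update_of_ne hi, Pi.add_apply, Pi.add_apply, Function.update_of_ne hi,
        Function.update_of_ne hi]

omit [NumberField K] [Fintype σ] in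
theorem el_self (a b : σ) (h : cl a = cl b) (s : ℤ) (z : ∀ i, (E (cl i)).Point) :
    el a b h s z b = z b + s • tp h (z a) := Function.update_self _ _ _

omit [NumberField K] [Fintype σ] in
theorem el_ne (a b : σ) (h : cl a = cl b) (s : ℤ) (z : ∀ i, (E (cl i)).Point) {i : σ}
    (hi : i ≠ b) : el a b h s z i = z i := Function.update_of_ne hi _ _

omit [NumberField K] [Fintype σ] in
theorem el_inv (a b : σ) (hab : a ≠ b) (h : cl a = cl b) (s : ℤ) (z : ∀ i, (E (cl i)).Point) :
    el a b h (-s) (el a b h s z) = z := by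
  funext i
  by_cases hi : i = b
  · subst hi
    rw [el_self, el_self, el_ne _ _ _ _ _ hab, neg_smul]
    abel
  · rw [el_ne _ _ _ _ _ hi, el_ne _ _ _ _ _ hi]

omit [NumberField K] in
theorem nrs_el {H : ∀ c, (E c).Point → ℝ} (hH : ∀ c, IsQuad (H c)) (a b : σ) (h : cl a = cl b)
    {s : ℤ} (hs : s = 1 ∨ s = -1) (z : ∀ i, (E (cl i)).Point) :
    nrs (W := fun i => E (cl i)) (fun i => H (cl i)) (el a b h s z) ≤
      4 * nrs (W := fun i => E (cl i)) (fun i => H (cl i)) z := by
  have h0 : ∀ i, 0 ≤ H (cl i) (z i) := fun i => (hH _).nonneg _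
  have hle : ∀ i, H (cl i) (z i) ≤ nrs (W := fun i => E (cl i)) (fun i => H (cl i)) z := fun i =>
    Finset.single_le_sum (f := fun i => H (cl i) (z i)) (fun j _ => h0 j) (Finset.mem_univ i)
  have h1 : H (cl b) (el a b h s z b) ≤ 2 * H (cl b) (z b) + 2 * H (cl a) (z a) := by
    rw [el_self]
    have h2 := (hH (cl b)).par (z b) (s • tp h (z a))
    have h3 := (hH (cl b)).nonneg (z b - s • tp h (z a))
    have h4 : H (cl b) (s • tp h (z a)) = H (cl a) (z a) := by
      rw [(hH (cl b)).zsmul, H_tp H h]
      rcases hs with hs | hs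
      · subst hs
        push_cast
        ring
      · subst hs
        push_cast
        ring
    linarith
  unfold nrs at hle ⊢
  rw [← Finset.add_sum_erase _ _ (Finset.mem_univ b)]
  have h5 : ∑ i ∈ Finset.univ.erase b, H (cl i) (el a b h s z i) =
      ∑ i ∈ Finset.univ.erase b, H (cl i) (z i) := by
    refine Finset.sum_congr rfl fun i hi => ?_
    rw [el_ne _ _ _ _ _ (Finset.ne_of_mem_erase hi)]
  have h6 : H (cl b) (z b) + ∑ i ∈ Finset.univ.erase b, H (cl i) (z i) =
      ∑ i, H (cl i) (z i) := Finset.add_sum_erase _ (fun i => H (cl i) (z i)) (Finset.mem_univ b)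
  have h7 := hle a
  have h8 := hle b
  linarith

omit [NumberField K] in
theorem xc_s {W₀ : Affine K} {s : ℤ} (hs : s = 1 ∨ s = -1) (P : W₀.Point) :
    xc (s • P) = xc P := by
  rcases hs with hs | hs
  · subst hs
    rw [one_smul]
  · subst hs
    rw [neg_one_smul]
    exact (Pool.Agent.Helper29.BL.xeq K W₀).2 P

omit [NumberField K] [Fintype σ] in
theorem xs_el (a b : σ) (h : cl a = cl b) (s : ℤ) (z : ∀ i, (E (cl i)).Point) :
    xs (W := fun i => E (cl i)) (el a b h s z) =
      Function.update (xs (W := fun i => E (cl i)) z) b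
        (xc (el a b h s z b)) := by
  funext i
  by_cases hi : i = b
  · subst hi
    rw [Function.update_self]
    rfl
  · rw [Function.update_of_ne hi]
    show xc (el a b h s z i) = xc (z i)
    rw [el_ne _ _ _ _ _ hi]

/-- the elementary move is admissible -/
theorem mov_el (hX : THX) (hG : GENP) (hT : TRF) (hW : ∀ c, (E c).IsElliptic)
    {H : ∀ c, (E c).Point → ℝ} (hH : ∀ c, IsQuad (H c)) (a b : σ) (hab : a ≠ b)
    (h : cl a = cl b) {s : ℤ} (hs : s = 1 ∨ s = -1) :
    Mov (W := fun i => E (cl i)) (fun i => H (cl i)) (el a b h s) := by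
  have hth : ∀ z : ∀ i, (E (cl i)).Point, (∀ i, z i ≠ 0) → (∀ i, el a b h s z i ≠ 0) →
      TH (E (cl b)) (xs (W := fun i => E (cl i)) z a) (xs (W := fun i => E (cl i)) z b)
        (xc (el a b h s z b)) = 0 := by
    intro z hz hz'
    have := hW (cl b)
    have h1 : s • tp h (z a) ≠ 0 := by
      have h2 := tp_ne h (hz a)
      rcases hs with hs | hs
      · subst hs
        rwa [one_smul]
      · subst hs
        rw [neg_one_smul]
        exact neg_ne_zero.2 h2
    have h3 := hz' b
    rw [el_self, add_comm] at h3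
    have h4 := hX K (E (cl b)) (s • tp h (z a)) (z b) two_ne_zero h1 (hz b) h3
    rw [xc_s hs, xc_tp] at h4
    rw [el_self, add_comm (z b)]
    exact h4
  refine ⟨⟨4, fun z => nrs_el hH a b h hs z⟩, ⟨4, fun z => ?_⟩, ⟨X a - X b, ?_, ?_⟩, ?_, ?_⟩
  · have h1 := nrs_el hH a b h (s := -s) (by rcases hs with hs | hs <;> subst hs <;> simp)
      (el a b h s z)
    rwa [el_inv a b hab] at h1
  · intro h0
    have h1 := congrArg (coeff (Finsupp.single a 1)) h0
    rw [coeff_sub, coeff_X, if_pos rfl, coeff_X, if_neg, coeff_zero, sub_zero] at h1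
    · exact one_ne_zero h1
    · intro h2
      have h3 := DFunLike.congr_fun h2 b
      rw [Finsupp.single_eq_same, Finsupp.single_eq_of_ne (Ne.symm hab)] at h3
      exact one_ne_zero h3
  · intro z hz hz' i
    by_cases hi : i = b
    · subst hi
      rw [el_self]
      intro h0
      have h1 : z i = -(s • tp h (z a)) := eq_neg_of_add_eq_zero_left h0
      rw [map_sub, eval_X, eval_X] at hz'
      apply hz'
      show xc (z a) - xc (z i) = 0
      rw [h1, (Pool.Agent.Helper29.BL.xeq K (E (cl i))).2, xc_s hs, xc_tp, sub_self]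
    · rw [el_ne _ _ _ _ _ hi]
      exact hz i
  · intro Z' hZ'
    obtain ⟨Z, hZ, hg⟩ := hG K (E (cl b)) (hW _) σ a b hab Z' hZ'
    refine ⟨Z, hZ, fun z hz hz' hz'' h0 => ?_⟩
    rw [xs_el] at h0
    exact hz'' (hg _ _ (hth z hz hz') h0)
  · intro D J _ f hf hc
    obtain ⟨E', J', _, f', C, hf', hc', hC, ht⟩ := hT K (E (cl b)) (hW _) σ D J f hf hc a b hab
    refine ⟨E', J', inferInstance, f', C, hf', hc', hC, fun z hz hz' hz'' => ?_⟩
    rw [xs_el] at hz'' ⊢
    exact (ht _ _ (hth z hz hz') hz'').2

end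

end Pool.Agent.Helper3.TG
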