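import Pool.Agent.Helper3.TG.EndGB

/-!
# Project TG (MP_a41896_nt): END-G, part C (Euclid, the theorem S_TG)
-/

set_option autoImplicit false

open MvPolynomial

namespace Pool.Agent.Helper3.TG

open WeierstrassCurve Height
open Pool.Agent.Helper29.BL
open Pool.Agent.Helper92.Ru hiding cmb
open Pool.Agent.Helper42.SG
open Pool.Agent.Helper5.UN (CodimGT cH)
open Pool.Agent.Helper60.HC (Lo nrs xs Bq eval_Bq Bq_ne_zero)
open Pool.Agent.Helper19.PM
open Pool.Agent.Helper19.TN (UD LowU MAINW Pr)
open Pool.Agent.Helper42.TG (cmb TFam slowP Free S_PR S_TG)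
open Pool.Agent.Helper42.TN (NonIsog NoCM)

noncomputable section

/-! ## Integers -/

theorem int_step (x y : ℤ) (hx : x ≠ 0) (hxy : x.natAbs ≤ y.natAbs) :
    ∃ s : ℤ, (s = 1 ∨ s = -1) ∧ (y - s * x).natAbs < y.natAbs := by
  rcases le_or_gt 0 x with h1 | h1
  · rcases le_or_gt 0 y with h2 | h2
    · exact ⟨1, Or.inl rfl, by omega⟩
    · exact ⟨-1, Or.inr rfl, by omega⟩
  · rcases le_or_gt 0 y with h2 | h2
    · exact ⟨-1, Or.inr rfl, by omega⟩
    · exact ⟨1, Or.inl rfl, by omega⟩

section cmb

variable {K : Type} [Field K] [NumberField K] [DecidableEq K] {σ : Type} [Fintype σ]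
  [DecidableEq σ] {ι : Type} [DecidableEq ι] {E : ι → Affine K} {cl : σ → ι}

omit [NumberField K] in
/-- the effect of the elementary move on a combination, corrected coefficients -/
theorem cmb_el (a b : σ) (hab : a ≠ b) (h : cl a = cl b) (s : ℤ)
    (z : ∀ i, (E (cl i)).Point) (κ : ι) (L : σ → ℤ) (hb : cl b = κ) :
    cmb (M := fun c => (E c).Point) cl (el a b h s z) κ
        (Function.update L a (L a - s * L b)) =
      cmb (M := fun c => (E c).Point) cl z κ L := by
  subst hb
  unfold cmb
  have hF : ∀ (P : σ → (E (cl b)).Point),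
      ∑ i, P i = P a + (P b + ∑ i ∈ (Finset.univ.erase a).erase b, P i) := by
    intro P
    rw [Finset.add_sum_erase _ _ (Finset.mem_erase.2 ⟨hab.symm, Finset.mem_univ b⟩),
      Finset.add_sum_erase _ _ (Finset.mem_univ a)]
  rw [hF, hF]
  have hrest : ∑ i ∈ (Finset.univ.erase a).erase b,
      (if h' : cl i = cl b then Function.update L a (L a - s * L b) i •
        (h' ▸ el a b h s z i : (E (cl b)).Point) else 0) =
      ∑ i ∈ (Finset.univ.erase a).erase b,
      (if h' : cl i = cl b then L i • (h' ▸ z i : (E (cl b)).Point) else 0) := by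
    refine Finset.sum_congr rfl fun i hi => ?_
    have h1 := (Finset.mem_erase.1 hi).1
    have h2 := (Finset.mem_erase.1 (Finset.mem_erase.1 hi).2).1
    rw [Function.update_of_ne h2, el_ne _ _ _ _ _ h1]
  rw [hrest, dif_pos h, dif_pos h, dif_pos rfl, dif_pos rfl, Function.update_self,
    Function.update_of_ne hab.symm, el_ne _ _ _ _ _ hab, el_self]
  have h3 : (h ▸ z a : (E (cl b)).Point) = tp h (z a) := rfl
  rw [h3]
  rw [sub_smul, smul_add, smul_smul, mul_comm s (L b)]
  abel

end cmb

/-! ## Euclid -/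

section euclid

variable {K : Type} [Field K] [NumberField K] [DecidableEq K] {σ : Type} [Fintype σ]
  [DecidableEq σ] {ι : Type} [DecidableEq ι] {E : ι → Affine K} {cl : σ → ι}

omit [NumberField K] [DecidableEq σ] in
/-- the height of a combination with one term -/
theorem H_cmb_single {H : ∀ c, (E c).Point → ℝ} (hH : ∀ c, IsQuad (H c)) (b : σ) (κ : ι)
    (hb : cl b = κ) (L : σ → ℤ) (hL : ∀ i, i ≠ b → L i = 0) (z : ∀ i, (E (cl i)).Point) :
    H κ (cmb (M := fun c => (E c).Point) cl z κ L) = (L b : ℝ) ^ 2 * H (cl b) (z b) := by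
  subst hb
  have h1 : cmb (M := fun c => (E c).Point) cl z (cl b) L = L b • z b := by
    unfold cmb
    rw [Finset.sum_eq_single b]
    · rw [dif_pos rfl]
    · intro i _ hi
      rw [hL i hi]
      split_ifs
      · exact zero_smul _ _
      · rfl
    · intro h
      exact absurd (Finset.mem_univ _) h
  rw [h1, (hH (cl b)).zsmul]

theorem euclid (hX : THX) (hG : GENP) (hT : TRF) (hW : ∀ c, (E c).IsElliptic)
    {H : ∀ c, (E c).Point → ℝ} (hH : ∀ c, IsQuad (H c))
    (hQ : IsQuad (nrs (W := fun i => E (cl i)) fun i => H (cl i))) {U : Ultrafilter ℕ} (M : ℕ)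
    (hmax : ∀ c, GD (W := fun i => E (cl i)) (fun i => H (cl i)) U c →
      (SC (W := fun i => E (cl i)) (fun i => H (cl i)) U c).ncard ≤ M) (κ : ι) :
    ∀ (m : ℕ) (c : ℕ → ∀ i, (E (cl i)).Point),
      GD (W := fun i => E (cl i)) (fun i => H (cl i)) U c →
      (SC (W := fun i => E (cl i)) (fun i => H (cl i)) U c).ncard = M → ∀ L : σ → ℤ,
      (∀ i, L i ≠ 0 → i ∉ SC (W := fun i => E (cl i)) (fun i => H (cl i)) U c ∧ cl i = κ) →
      (∃ i, L i ≠ 0) → ∑ i, (L i).natAbs ≤ m →
      (fun k => cmb (M := fun c => (E c).Point) cl (c k) κ L) ∉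
        slowP U (fun k => nrs (W := fun i => E (cl i)) (fun i => H (cl i)) (c k)) (H κ) := by
  intro m
  induction m with
  | zero =>
    intro c hc hM L hL hne hm
    obtain ⟨i, hi⟩ := hne
    have h1 := Finset.single_le_sum (f := fun i => (L i).natAbs) (fun j _ => Nat.zero_le _)
      (Finset.mem_univ i)
    omega
  | succ m ih =>
    intro c hc hM L hL hne hm hslow
    -- `b`: the smallest coefficient
    obtain ⟨b, hb, hmin⟩ := Finset.exists_min_image (Finset.univ.filter fun i => L i ≠ 0)
      (fun i => (L i).natAbs) (by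
        obtain ⟨i, hi⟩ := hne
        exact ⟨i, Finset.mem_filter.2 ⟨Finset.mem_univ _, hi⟩⟩)
    have hLb : L b ≠ 0 := (Finset.mem_filter.1 hb).2
    have hbS := (hL b hLb).1
    have hbκ := (hL b hLb).2
    by_cases hone : ∀ i, i ≠ b → L i = 0
    · -- one term
      refine hbS ?_
      intro η hη
      have h1 : (0 : ℝ) < (L b : ℝ) ^ 2 := by
        have : (L b : ℝ) ≠ 0 := by exact_mod_cast hLb
        positivity
      filter_upwards [hslow ((L b : ℝ) ^ 2 * η) (by positivity)] with k hk
      rw [H_cmb_single hH b κ hbκ L hone, mul_assoc] at hk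
      exact le_of_mul_le_mul_left hk h1
    · push Not at hone
      obtain ⟨a, hab, hLa⟩ := hone
      have haκ := (hL a hLa).2
      obtain ⟨s, hs, hlt⟩ := int_step (L b) (L a) hLb
        (hmin a (Finset.mem_filter.2 ⟨Finset.mem_univ _, hLa⟩))
      have hcab : cl a = cl b := haκ.trans hbκ.symm
      obtain ⟨c', hc', heq, C, hC, hCle, -⟩ := hc.move hQ (mov_el hX hG hT hW hH a b hab hcab hs)
      have hsub : SC (W := fun i => E (cl i)) (fun i => H (cl i)) U c ⊆
          SC (W := fun i => E (cl i)) (fun i => H (cl i)) U c' := by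
        intro i hi
        have hib : i ≠ b := by
          rintro rfl
          exact hbS hi
        have h1 : (fun k => c k i) ∈ slowP U
            (fun k => nrs (W := fun i => E (cl i)) (fun i => H (cl i)) (c k)) (H (cl i)) := hi
        have h2 : (fun k => c' k i) ∈ slowP U
            (fun k => nrs (W := fun i => E (cl i)) (fun i => H (cl i)) (c k)) (H (cl i)) := by
          refine slow_congr ?_ h1
          filter_upwards [heq] with k hk
          rw [hk, el_ne _ _ _ _ _ hib]
        exact slow_mono hC hCle h2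
      have hM' : (SC (W := fun i => E (cl i)) (fun i => H (cl i)) U c').ncard = M :=
        le_antisymm (hmax c' hc') (hM ▸ Set.ncard_le_ncard hsub (Set.toFinite _))
      have hSC : SC (W := fun i => E (cl i)) (fun i => H (cl i)) U c =
          SC (W := fun i => E (cl i)) (fun i => H (cl i)) U c' :=
        Set.eq_of_subset_of_ncard_le hsub (by rw [hM, hM']) (Set.toFinite _)
      refine ih c' hc' hM' (Function.update L a (L a - s * L b)) ?_ ⟨b, ?_⟩ ?_ ?_
      · intro i hi
        rw [← hSC]
        by_cases hia : i = a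
        · subst hia
          exact hL i hLa
        · rw [Function.update_of_ne hia] at hi
          exact hL i hi
      · rw [Function.update_of_ne hab.symm]
        exact hLb
      · have h1 : ∑ i, (Function.update L a (L a - s * L b) i).natAbs < ∑ i, (L i).natAbs := by
          refine Finset.sum_lt_sum (fun i _ => ?_) ⟨a, Finset.mem_univ _, ?_⟩
          · by_cases hia : i = a
            · subst hia
              rw [Function.update_self]
              exact hlt.le
            · rw [Function.update_of_ne hia]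
          · rw [Function.update_self]
            exact hlt
        omega
      · have h2 : (fun k => cmb (M := fun c => (E c).Point) cl (c' k) κ
            (Function.update L a (L a - s * L b))) ∈ slowP U
            (fun k => nrs (W := fun i => E (cl i)) (fun i => H (cl i)) (c k)) (H κ) := by
          refine slow_congr ?_ hslow
          filter_upwards [heq] with k hk
          rw [hk]
          exact cmb_el a b hab hcab s (c k) κ L hbκ
        exact slow_mono hC hCle h2

end euclid

/-! ## The theorem -/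

section main

variable {K : Type} [Field K] [NumberField K] [DecidableEq K] {σ : Type} [Fintype σ]
  [DecidableEq σ] {ι : Type} [DecidableEq ι] {E : ι → Affine K} {cl : σ → ι}

omit [NumberField K] [DecidableEq σ] in
theorem cmb_val (w : ∀ j, ℕ → (E (cl j)).Point) (κ : ι) (n : σ → ℤ) (k : ℕ) :
    cmb (M := fun c => ℕ → (E c).Point) cl w κ n k =
      cmb (M := fun c => (E c).Point) cl (fun j => w j k) κ n := by
  unfold cmb
  rw [Finset.sum_apply]
  refine Finset.sum_congr rfl fun i _ => ?_
  split_ifs with h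
  · subst h
    rfl
  · rfl

/-- no good sequences -/
theorem no_gd (hPR : S_PR) (hP : S_P1S) (hE : EMS) (hX : THX) (hG : GENP) (hT : TRF)
    (hW : ∀ c, (E c).IsElliptic) (hN : ∀ c c', c ≠ c' → NonIsog (E c) (E c'))
    (hM : ∀ i k, i ≠ k → cl i = cl k → NoCM (E (cl i))) {H : ∀ c, (E c).Point → ℝ} {c₀ : ℝ}
    (hH : ∀ c, CanH (E c) (H c) c₀) (U : Ultrafilter ℕ) (c : ℕ → ∀ i, (E (cl i)).Point) :
    ¬ GD (W := fun i => E (cl i)) (fun i => H (cl i)) U c := by
  classical
  intro hc0
  have hq : ∀ c, IsQuad (H c) := fun c => (hH c).quad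
  have hQ : IsQuad (nrs (W := fun i => E (cl i)) fun i => H (cl i)) :=
    Pool.Agent.Helper60.HC.th_QPI.1 σ (fun i => (E (cl i)).Point) (fun i => H (cl i))
      fun i => hq _
  -- a good sequence with the maximal number of slow coordinates
  obtain ⟨c, hc, hmax⟩ : ∃ c, GD (W := fun i => E (cl i)) (fun i => H (cl i)) U c ∧
      ∀ c', GD (W := fun i => E (cl i)) (fun i => H (cl i)) U c' →
        (SC (W := fun i => E (cl i)) (fun i => H (cl i)) U c').ncard ≤
          (SC (W := fun i => E (cl i)) (fun i => H (cl i)) U c).ncard := by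
    by_contra hno
    push Not at hno
    have h1 : ∀ n : ℕ, ∃ c, GD (W := fun i => E (cl i)) (fun i => H (cl i)) U c ∧
        n ≤ (SC (W := fun i => E (cl i)) (fun i => H (cl i)) U c).ncard := by
      intro n
      induction n with
      | zero => exact ⟨c, hc0, Nat.zero_le _⟩
      | succ n ih =>
        obtain ⟨c1, h1, h2⟩ := ih
        obtain ⟨c2, h3, h4⟩ := hno c1 h1
        exact ⟨c2, h3, by omega⟩
    obtain ⟨c1, h1, h2⟩ := h1 (Fintype.card σ + 1)
    have h3 : (SC (W := fun i => E (cl i)) (fun i => H (cl i)) U c1).ncard ≤ Fintype.card σ := by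
      rw [← Nat.card_eq_fintype_card, ← Set.ncard_univ]
      exact Set.ncard_le_ncard (Set.subset_univ _) (Set.toFinite _)
    omega
  -- the fast coordinates
  obtain ⟨F, hF⟩ : ∃ F : Finset σ, F = Finset.univ.filter fun i =>
    i ∉ SC (W := fun i => E (cl i)) (fun i => H (cl i)) U c := ⟨_, rfl⟩
  obtain ⟨ρ, hρd⟩ : ∃ ρ : Fin F.card → σ, ρ = fun j => (F.equivFin.symm j).1 := ⟨_, rfl⟩
  have hρi : Function.Injective ρ := by
    intro j j' h
    rw [hρd] at h
    exact F.equivFin.symm.injective (Subtype.ext h)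
  have hρF : ∀ j, ρ j ∈ F := by
    intro j
    rw [hρd]
    exact (F.equivFin.symm j).2
  have hρS : ∀ j, ρ j ∉ SC (W := fun i => E (cl i)) (fun i => H (cl i)) U c := by
    intro j
    have := hρF j
    rw [hF] at this
    exact (Finset.mem_filter.1 this).2
  have hρr : ∀ i, i ∉ Set.range ρ → i ∈ SC (W := fun i => E (cl i)) (fun i => H (cl i)) U c := by
    intro i hi
    by_contra hno
    refine hi ⟨F.equivFin ⟨i, by rw [hF]; exact Finset.mem_filter.2 ⟨Finset.mem_univ _, hno⟩⟩, ?_⟩
    rw [hρd]
    simp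
  have hw : ∀ j : Fin F.card, cmb (M := fun c => ℕ → (E c).Point) cl (fun i k => c k i)
      (cl (ρ j)) (Pi.single (ρ j) 1) = fun k => c k (ρ j) := by
    intro j
    have h1 := Pool.Agent.Helper19.TG.cmb_single (M := fun c => ℕ → (E c).Point) cl
      (fun i k => c k i) (ρ j) 1
    rw [one_smul] at h1
    exact h1
  have hTF : TFam (M := fun c => ℕ → (E c).Point)
      (fun κ => slowP U (fun k => nrs (W := fun i => E (cl i)) (fun i => H (cl i)) (c k)) (H κ))
      (fun j => cl (ρ j)) (fun j => cmb (M := fun c => ℕ → (E c).Point) cl (fun i k => c k i)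
        (cl (ρ j)) (Pi.single (ρ j) 1)) := by
    intro κ n hn
    simp only [hw]
    obtain ⟨L0, hL0⟩ : ∃ L0 : σ → ℤ, L0 = fun i => if h : ∃ j, ρ j = i then n h.choose else 0 :=
      ⟨_, rfl⟩
    have hL0' : ∀ j, L0 (ρ j) = n j := by
      intro j
      have h : ∃ j', ρ j' = ρ j := ⟨j, rfl⟩
      rw [hL0]
      dsimp only
      rw [dif_pos h, hρi h.choose_spec]
    obtain ⟨L, hLd⟩ : ∃ L : σ → ℤ, L = fun i => if cl i = κ then L0 i else 0 := ⟨_, rfl⟩
    have hcong : cmb (M := fun c => ℕ → (E c).Point) cl (fun i k => c k i) κ L0 =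
        cmb (M := fun c => ℕ → (E c).Point) cl (fun i k => c k i) κ L := by
      unfold cmb
      refine Finset.sum_congr rfl fun i _ => ?_
      split_ifs with h
      · rw [hLd]
        dsimp only
        rw [if_pos h]
      · rfl
    have hkey : cmb (M := fun c => ℕ → (E c).Point) (fun j => cl (ρ j))
        (fun j k => c k (ρ j)) κ n =
        cmb (M := fun c => ℕ → (E c).Point) cl (fun i k => c k i) κ L0 := by
      refine (Pool.Agent.Helper19.TG.cmb_sub (M := fun c => ℕ → (E c).Point) ρ hρi cl
        (fun i k => c k i) κ n).trans ?_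
      congr 1
      rw [hL0]
      funext i
      by_cases h : ∃ j, ρ j = i
      · rw [dif_pos h, dif_pos h]
      · rw [dif_neg h, dif_neg h]
    rw [hkey, hcong]
    have h1 := euclid hX hG hT hW hq hQ _ hmax κ _ c hc rfl L ?_ ?_ le_rfl
    · intro h2
      refine h1 ?_
      have h3 : (fun k => cmb (M := fun c => (E c).Point) cl (c k) κ L) =
          cmb (M := fun c => ℕ → (E c).Point) cl (fun i k => c k i) κ L := by
        funext k
        rw [cmb_val]
      rw [h3]
      exact h2
    · intro i hi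
      have h2 : cl i = κ := by
        by_contra hne
        refine hi ?_
        rw [hLd]
        exact if_neg hne
      refine ⟨?_, h2⟩
      have h3 : L0 i ≠ 0 := by
        rw [hLd] at hi
        dsimp only at hi
        rwa [if_pos h2] at hi
      by_cases h : ∃ j, ρ j = i
      · obtain ⟨j, rfl⟩ := h
        exact hρS j
      · exact absurd (by rw [hL0]; exact dif_neg h) h3
    · obtain ⟨j, hj, hnj⟩ := hn
      refine ⟨ρ j, ?_⟩
      rw [hLd]
      dsimp only
      rw [if_pos hj, hL0']
      exact hnj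
  have hfree := hPR K ι E hW hN σ cl hM H c₀ hH U c hc.ud F.card (fun j => cl (ρ j))
    (fun j => Pi.single (ρ j) 1) hTF
  refine gd_false hP hE (fun i => hW _) (fun i => hH _) hQ hc ρ hρi hρr ?_
  have h5 : (fun (j : Fin F.card) (k : ℕ) => xc (cmb (M := fun c => ℕ → (E c).Point) cl
      (fun i k => c k i) (cl (ρ j)) (Pi.single (ρ j) 1) k)) =
      fun (j : Fin F.card) (k : ℕ) => xc (c k (ρ j)) := by
    funext j k
    rw [hw]
  rw [h5] at hfree
  exact hfree

/-- **S_TG** from S_PR, P1S, EMS, THX, GENP, TRF -/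
theorem s_tg (hPR : S_PR) (hP : S_P1S) (hE : EMS) (hX : THX) (hG : GENP) (hT : TRF) : S_TG := by
  classical
  intro K _ _ _ ι _ E hW hN σ _ _ cl hM
  -- canonical heights on the classes
  have hcan' : ∀ c, ∃ (H : (E c).Point → ℝ) (r : ℝ), CanH (E c) H r := fun c => by
    have := hW c
    exact Pool.Agent.Helper29.BL.th_can K (E c)
  choose H r hH0 using hcan'
  have hr : ∀ c, 0 ≤ r c := fun c => (abs_nonneg _).trans ((hH0 c).near 0)
  obtain ⟨c₀, hc₀⟩ : ∃ c₀ : ℝ, c₀ = ∑ i, r (cl i) := ⟨_, rfl⟩
  have hc0 : 0 ≤ c₀ := by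
    rw [hc₀]
    exact Finset.sum_nonneg fun i _ => hr _
  have hle : ∀ i, r (cl i) ≤ c₀ := by
    intro i
    rw [hc₀]
    exact Finset.single_le_sum (f := fun i => r (cl i)) (fun j _ => hr _) (Finset.mem_univ i)
  have hcanc : ∀ i, CanH (E (cl i)) (H (cl i)) c₀ := fun i =>
    ⟨(hH0 _).quad, fun P => ((hH0 _).near P).trans (hle i)⟩
  refine main_gd (W := fun i => E (cl i)) (H := fun i => H (cl i)) hc0 hcanc ?_
  intro U c
  have h1 := no_gd (ι := {c // ∃ i, cl i = c}) (E := fun c => E c.1) (cl := fun i => ⟨cl i, i, rfl⟩)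
    hPR hP hE hX hG hT (fun c => hW _) (fun c c' hne => hN _ _ fun h => hne (Subtype.ext h))
    (fun i k hik h => hM i k hik (congrArg Subtype.val h)) (H := fun c => H c.1) (c₀ := c₀)
    (fun c => by
      obtain ⟨c, i, rfl⟩ := c
      exact hcanc i) U c
  exact h1

end main

end

end Pool.Agent.Helper3.TG
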