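import Pool.Agent.Helper92.ZH.Main
import Pool.Agent.Helper19.PM.MainS
import Pool.Agent.Helper3.TG.EndGC
import Pool.Agent.Helper2.TG.LPRJ
import Pool.Agent.Helper57.TG.ENL
import Pool.Agent.Helper87.TG.HVT
import Pool.Agent.Helper99.TG.HVM
import Pool.Agent.Helper83.TG.THN
import Pool.Agent.Helper37.TG.GENT
import Pool.Agent.Helper20.TG.GENP
import Pool.Agent.Helper79.TG.LTRF
import Pool.Agent.Helper67.TG.TRF
import Pool.Agent.Helper25.TG.THX
import Pool.Agent.Helper98.TG.RENC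

/-!
# Project TG (MP_a41896_nt): TRANSFER, unconditional
-/

set_option autoImplicit false

namespace Pool.Agent.Helper3.TG.Main

open Pool.Agent.Helper3.TG

theorem th_LPRJ : LPRJ := Pool.Agent.Helper2.TG.LPRJ.t Pool.Agent.Helper60.HC.th_ELOC2

theorem th_ENL : ENL :=
  Pool.Agent.Helper57.TG.ENL.t Pool.Agent.Helper99.TG.HVM.t Pool.Agent.Helper87.TG.HVT.t
    Pool.Agent.Helper83.TG.THN.t

theorem th_LTRF : LTRF :=
  Pool.Agent.Helper79.TG.LTRF.t th_ENL th_LPRJ Pool.Agent.Helper98.TG.RENC.t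

theorem th_TRF : TRF := Pool.Agent.Helper67.TG.TRF.t th_LTRF Pool.Agent.Helper60.HC.th_CHB

theorem th_GENT : GENT := Pool.Agent.Helper37.TG.GENT.t Pool.Agent.Helper83.TG.THN.t

theorem th_GENP : GENP := Pool.Agent.Helper20.TG.GENP.t th_GENT Pool.Agent.Helper92.ZH.Main.th_RESE

theorem th_THX : THX := Pool.Agent.Helper25.TG.THX.t Pool.Agent.Helper12.SGB.th_ELAW

/-- END-G with the TRANSFER theorems -/
theorem s_tg (hPR : Pool.Agent.Helper42.TG.S_PR) (hP : Pool.Agent.Helper19.PM.S_P1S)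
    (hE : Pool.Agent.Helper19.PM.EMS) : Pool.Agent.Helper42.TG.S_TG :=
  Pool.Agent.Helper3.TG.s_tg hPR hP hE th_THX th_GENP th_TRF

/-- **S_TG** from S_PR only -/
theorem th_S_TG (hPR : Pool.Agent.Helper42.TG.S_PR) : Pool.Agent.Helper42.TG.S_TG :=
  s_tg hPR Pool.Agent.Helper19.PM.th_P1S Pool.Agent.Helper19.PM.th_EMS

end Pool.Agent.Helper3.TG.Main
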